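import Pool.Agent.Y133.Half.Growth

/-!
# Alternating classes on powers of a variety
-/

open CategoryTheory AlgebraicGeometry

universe u v

namespace Pool.Agent.NH34.Reg

open Module
open Pool.Agent.H914 Pool.Agent.H914.VarClass Pool.Agent.H914.VarClass.Obj
  Pool.Agent.H914.WeilCohomology Pool.Agent.Y133.Half

section Multi

variable {K V N : Type*} [Field K] [AddCommGroup V] [Module K V] [AddCommGroup N] [Module K N]
  {m : ℕ}

/-- An alternating map of linear combinations of the given vectors. -/
lemma alt_matrix (g : V [⋀^Fin m]→ₗ[K] N) (x : Fin m → V) (M : Matrix (Fin m) (Fin m) K) :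
    g (fun j => ∑ k, M k j • x k) = M.det • g x := by
  classical
  let φ : (Fin m → K) →ₗ[K] V := Fintype.linearCombination K x
  let G1 : (Fin m → K) [⋀^Fin m]→ₗ[K] N := g.compLinearMap φ
  let G2 : (Fin m → K) [⋀^Fin m]→ₗ[K] N :=
    (LinearMap.toSpanSingleton K N (g x)).compAlternatingMap
      (Matrix.detRowAlternating (R := K) (n := Fin m))
  have hφ : ∀ i, φ (Pi.single i 1) = x i := by
    intro i
    change Fintype.linearCombination K x (Pi.single i 1) = x i
    rw [Fintype.linearCombination_apply_single, one_smul]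
  have hG : G1 = G2 := by
    refine Basis.ext_alternating (Pi.basisFun K (Fin m)) fun v hv => ?_
    let σ : Equiv.Perm (Fin m) := Equiv.ofBijective v (Finite.injective_iff_bijective.1 hv)
    have e1 : (fun i => Pi.basisFun K (Fin m) (v i)) =
        (fun i => Pi.basisFun K (Fin m) i) ∘ σ := rfl
    rw [e1, G1.map_perm, G2.map_perm]
    congr 1
    have e2 : G1 (fun i => Pi.basisFun K (Fin m) i) = g x := by
      change g (fun i => φ (Pi.basisFun K (Fin m) i)) = g x
      congr 1
      funext i
      rw [Pi.basisFun_apply, hφ]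
    have e3 : G2 (fun i => Pi.basisFun K (Fin m) i) = g x := by
      change Matrix.det (Matrix.of fun i j => Pi.basisFun K (Fin m) i j) • g x = g x
      have : (Matrix.of fun i j => Pi.basisFun K (Fin m) i j) = 1 := by
        ext i j
        rw [Matrix.of_apply, Pi.basisFun_apply, Matrix.one_apply, Pi.single_apply]
        exact if_congr eq_comm rfl rfl
      rw [this, Matrix.det_one, one_smul]
    rw [e2, e3]
  have h1 := congrArg (fun f : (Fin m → K) [⋀^Fin m]→ₗ[K] N => f fun j => fun k => M k j) hG
  have h2 : G1 (fun j => fun k => M k j) = g (fun j => ∑ k, M k j • x k) := by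
    change g (fun j => φ (fun k => M k j)) = _
    congr 1
  have h3 : G2 (fun j => fun k => M k j) = M.det • g x := by
    change Matrix.det (fun j => fun k => M k j) • g x = _
    congr 1
    exact Matrix.det_transpose M
  rw [← h2, ← h3]
  exact h1

/-- The first block of variables. -/
def fixR (G : MultilinearMap K (fun _ : Fin m ⊕ Fin m => V) N) (y : Fin m → V) :
    MultilinearMap K (fun _ : Fin m => V) N where
  toFun x := G (Sum.elim x y)
  map_update_add' x i a b := by
    rw [← Sum.update_elim_inl, ← Sum.update_elim_inl, ← Sum.update_elim_inl, G.map_update_add]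
  map_update_smul' x i c a := by
    rw [← Sum.update_elim_inl, ← Sum.update_elim_inl, G.map_update_smul]

/-- The second block of variables. -/
def fixL (G : MultilinearMap K (fun _ : Fin m ⊕ Fin m => V) N) (x : Fin m → V) :
    MultilinearMap K (fun _ : Fin m => V) N where
  toFun y := G (Sum.elim x y)
  map_update_add' y i a b := by
    rw [← Sum.update_elim_inr, ← Sum.update_elim_inr, ← Sum.update_elim_inr, G.map_update_add]
  map_update_smul' y i c a := by
    rw [← Sum.update_elim_inr, ← Sum.update_elim_inr, G.map_update_smul]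

lemma fixR_apply (G : MultilinearMap K (fun _ : Fin m ⊕ Fin m => V) N) (x y : Fin m → V) :
    fixR G y x = G (Sum.elim x y) := rfl

lemma fixL_apply (G : MultilinearMap K (fun _ : Fin m ⊕ Fin m => V) N) (x y : Fin m → V) :
    fixL G x y = G (Sum.elim x y) := rfl

/-- The sum over all permutations of both blocks. -/
noncomputable def D2 (G : MultilinearMap K (fun _ : Fin m ⊕ Fin m => V) N) (x y : Fin m → V) :
    N :=
  ∑ τ : Equiv.Perm (Fin m), ∑ σ : Equiv.Perm (Fin m), Equiv.Perm.sign τ • Equiv.Perm.sign σ •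
    G (Sum.elim (x ∘ σ) (y ∘ τ))

lemma D2_left (G : MultilinearMap K (fun _ : Fin m ⊕ Fin m => V) N) (x y : Fin m → V) :
    D2 G x y = ∑ τ : Equiv.Perm (Fin m), Equiv.Perm.sign τ •
      MultilinearMap.alternatization (fixR G (y ∘ τ)) x := by
  rw [D2]
  refine Finset.sum_congr rfl fun τ _ => ?_
  rw [MultilinearMap.alternatization_apply, Finset.smul_sum]
  rfl

lemma D2_right (G : MultilinearMap K (fun _ : Fin m ⊕ Fin m => V) N) (x y : Fin m → V) :
    D2 G x y = ∑ σ : Equiv.Perm (Fin m), Equiv.Perm.sign σ •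
      MultilinearMap.alternatization (fixL G (x ∘ σ)) y := by
  rw [D2, Finset.sum_comm]
  refine Finset.sum_congr rfl fun σ _ => ?_
  rw [MultilinearMap.alternatization_apply, Finset.smul_sum]
  refine Finset.sum_congr rfl fun τ _ => ?_
  rw [smul_comm]
  rfl

lemma D2_matrix (G : MultilinearMap K (fun _ : Fin m ⊕ Fin m => V) N) (x : Fin m → V)
    (M : Matrix (Fin m) (Fin m) K) :
    D2 G (fun j => ∑ k, M k j • x k) (fun j => ∑ k, M k j • x k) = M.det ^ 2 • D2 G x x := by
  rw [D2_left]
  simp only [alt_matrix]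
  have h1 : ∀ y : Fin m → V, ∑ τ : Equiv.Perm (Fin m), Equiv.Perm.sign τ • M.det •
      MultilinearMap.alternatization (fixR G (y ∘ τ)) x = M.det • D2 G x y := by
    intro y
    rw [D2_left, Finset.smul_sum]
    exact Finset.sum_congr rfl fun τ _ => smul_comm _ _ _
  rw [h1, D2_right]
  simp only [alt_matrix]
  rw [sq, ← smul_smul, D2_right]
  congr 1
  rw [Finset.smul_sum]
  exact Finset.sum_congr rfl fun τ _ => smul_comm _ _ _

end Multi

variable {k : Type u} [Field k] {𝒱 : VarClass k} {ops : CycleOps 𝒱}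
  {W : WeilCohomology.{u, v} ops} {X P Q : 𝒱.Obj}

/-- The external product of classes on `X`. -/
noncomputable def FF (W : WeilCohomology.{u, v} ops) (X : 𝒱.Obj) (n : ℕ) :
    MultilinearMap W.K (fun _ : Fin (n + 1) => W.H X) (W.H (pw X n)) :=
  (MultilinearMap.mkPiAlgebraFin W.K (n + 1) (W.H (pw X n))).compLinearMap
    fun i => (W.map (prj X n i)).toLinearMap

lemma FF_apply (n : ℕ) (a : Fin (n + 1) → W.H X) :
    FF W X n a = (List.ofFn fun i => W.map (prj X n i) (a i)).prod := rfl

lemma FF_zero (a : Fin 1 → W.H X) : FF W X 0 a = a 0 := by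
  rw [FF_apply, List.ofFn_succ, List.ofFn_zero, List.prod_singleton]
  exact W.map_id _ _

lemma FF_succ (n : ℕ) (a : Fin (n + 2) → W.H X) :
    FF W X (n + 1) a = xp W (FF W X n fun i => a i.castSucc) (a (Fin.last _)) := by
  rw [FF_apply]
  conv_lhs => rw [List.ofFn_succ', List.prod_concat, prj_last]
  rw [FF_apply, xp, map_list_prod, List.map_ofFn]
  congr 3
  funext i
  rw [Function.comp_apply, prj_castSucc, W.map_comp]
  rfl

lemma FF_mem {i : ℕ} (n : ℕ) {a : Fin (n + 1) → W.H X} (ha : ∀ j, a j ∈ W.gr X i) :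
    FF W X n a ∈ W.gr (pw X n) ((n + 1) * i) := by
  induction n with
  | zero => rw [FF_zero, zero_add, one_mul]; exact ha 0
  | succ n ih =>
    rw [FF_succ, add_mul (n + 1) 1 i, one_mul]
    exact W.mul_mem (W.map_mem _ (ih fun j => ha _)) (W.map_mem _ (ha _))

/-- The intersection number of two external products. -/
lemma tr_FF (W : WeilCohomology.{u, v} ops) (X : 𝒱.Obj) (i i' n : ℕ) :
    ∃ s : W.K, s ≠ 0 ∧ ∀ a b : Fin (n + 1) → W.H X,
      (∀ j, a j ∈ W.gr X i) → (∀ j, b j ∈ W.gr X i') →
        W.tr (pw X n) (FF W X n a * FF W X n b) = s * ∏ j, W.tr X (a j * b j) := by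
  induction n with
  | zero =>
    refine ⟨1, one_ne_zero, fun a b _ _ => ?_⟩
    rw [FF_zero, FF_zero, one_mul, Fin.prod_univ_one]
    rfl
  | succ n ih =>
    obtain ⟨s, hs, h⟩ := ih
    refine ⟨(-1) ^ (i * ((n + 1) * i')) * s, mul_ne_zero (pow_ne_zero _ (by simp)) hs,
      fun a b ha hb => ?_⟩
    have h1 := h (fun j => a j.castSucc) (fun j => b j.castSucc) (fun j => ha _) fun j => hb _
    have h2 : FF W X n (fun j => b j.castSucc) ∈ PH W (pw X n) ((n + 1) * i') :=
      PH.of (FF_mem n fun j => hb _)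
    have h3 := xp_mul (FF W X n fun j => a j.castSucc) (FF W X n fun j => b j.castSucc)
      (a (Fin.last _)) (b (Fin.last _)) (PH.of (ha (Fin.last _))) h2
    have h4 : FF W X (n + 1) a * FF W X (n + 1) b =
        (xp W (FF W X n fun j => a j.castSucc) (a (Fin.last _)) *
          xp W (FF W X n fun j => b j.castSucc) (b (Fin.last _)) : W.H ((pw X n).prod X)) := by
      rw [FF_succ, FF_succ]
      rfl
    rw [h4, h3]
    change W.tr ((pw X n).prod X) _ = _
    have h5 : ∏ j, W.tr X (a j * b j) = (∏ j : Fin (n + 1), W.tr X (a j.castSucc * b j.castSucc)) *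
        W.tr X (a (Fin.last _) * b (Fin.last _)) := Fin.prod_univ_castSucc _
    rw [map_smul, tr_xp, h1, h5, smul_eq_mul]
    ring

end Pool.Agent.NH34.Reg
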