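import Pool.Agent.NH34.Reg.Alt

/-!
# The operators given by products of alternating classes
-/

open CategoryTheory AlgebraicGeometry

universe u v

namespace Pool.Agent.NH34.Reg

open Module
open Pool.Agent.H914 Pool.Agent.H914.VarClass Pool.Agent.H914.VarClass.Obj
  Pool.Agent.H914.WeilCohomology Pool.Agent.Y133.Half

variable {k : Type u} [Field k] {𝒱 : VarClass k} {ops : CycleOps 𝒱}
  {W : WeilCohomology.{u, v} ops} {X P Q : 𝒱.Obj}

/-- The image of the operator given by an external product is spanned by the second factor. -/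
lemma corr_xp_mem {b : ℕ} (x : W.H P) {y : W.H X} (hy : y ∈ PH W X b) (z : W.H P) :
    W.corr (xp W x y) z ∈ Submodule.span W.K {y} := by
  have hz : z ∈ ⨆ i, W.gr P i := by rw [(W.isInternal P).submodule_iSup_eq_top]; trivial
  refine Submodule.iSup_induction (W.gr P)
    (motive := fun z => W.corr (xp W x y) z ∈ Submodule.span W.K {y}) hz ?_ ?_ ?_
  · intro i z hz
    rw [corr_xp x hy (PH.of hz)]
    exact Submodule.smul_mem _ _ (Submodule.mem_span_singleton_self _)
  · rw [map_zero]; exact Submodule.zero_mem _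
  · intro z z' hz hz'
    rw [map_add]; exact Submodule.add_mem _ hz hz'

/-- The operator given by a class on a power. -/
noncomputable def LL (W : WeilCohomology.{u, v} ops) (X : 𝒱.Obj) (N : ℕ) :
    W.H (pw X (N + 1)) →ₗ[W.K] (W.H (pw X N) →ₗ[W.K] W.H X) := corrL W (pw X N) X

variable {m N : ℕ}

lemma sign_mem {K V : Type*} [Field K] [AddCommGroup V] [Module K V] (p : Submodule K V)
    (s : ℤˣ) {x : V} (hx : x ∈ p) : s • x ∈ p := by
  rcases Int.units_eq_one_or s with rfl | rfl
  · rwa [one_smul]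
  · rw [Units.neg_smul, one_smul]
    exact p.neg_mem hx

/-- The external product of two blocks of classes. -/
noncomputable def G2 (W : WeilCohomology.{u, v} ops) (X : 𝒱.Obj) (ε : Fin (N + 2) ≃ Fin m ⊕ Fin m) :
    MultilinearMap W.K (fun _ : Fin m ⊕ Fin m => W.H X) (W.H (pw X (N + 1))) :=
  (FF W X (N + 1)).domDomCongr ε

lemma G2_apply (ε : Fin (N + 2) ≃ Fin m ⊕ Fin m) (c : Fin m ⊕ Fin m → W.H X) :
    G2 W X ε c = xp W (FF W X N fun j => c (ε j.castSucc)) (c (ε (Fin.last _))) := by
  rw [G2, MultilinearMap.domDomCongr_apply]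
  exact FF_succ N _

/-- The product of the two alternating classes given by the classes `u j`. -/
noncomputable def cc (W : WeilCohomology.{u, v} ops) (X : 𝒱.Obj) (ε : Fin (N + 2) ≃ Fin m ⊕ Fin m)
    (u : Fin m → W.H X) : W.H (pw X (N + 1)) :=
  D2 (G2 W X ε) u u

lemma cc_mem {i : ℕ} (ε : Fin (N + 2) ≃ Fin m ⊕ Fin m) {u : Fin m → W.H X}
    (hu : ∀ j, u j ∈ W.gr X i) : cc W X ε u ∈ W.gr (pw X (N + 1)) (2 * (i * m)) := by
  have hN : N + 2 = m + m := by simpa using Fintype.card_congr ε
  refine Submodule.sum_mem _ fun τ _ => Submodule.sum_mem _ fun σ _ => ?_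
  refine sign_mem _ _ (sign_mem _ _ ?_)
  rw [G2, MultilinearMap.domDomCongr_apply]
  have h1 := FF_mem (W := W) (X := X) (i := i) (N + 1)
    (a := fun j => Sum.elim (u ∘ σ) (u ∘ τ) (ε j)) fun j => by
      rcases ε j with p | p
      · exact hu _
      · exact hu _
  have h2 : (N + 1 + 1) * i = 2 * (i * m) := by
    rw [show N + 1 + 1 = m + m by omega]; ring
  rwa [h2] at h1

lemma perm_eq_of {τ ρ : Equiv.Perm (Fin m)} {q : Fin m} (h : ∀ p, p ≠ q → τ p = ρ p) : τ = ρ := by
  ext p
  by_cases hp : p = q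
  · subst hp
    by_contra hne
    have h1 : ρ.symm (τ p) ≠ p := by
      intro h2
      apply hne
      rw [Equiv.symm_apply_eq] at h2
      exact congrArg Fin.val h2
    have h2 := h _ h1
    have h3 : ρ (ρ.symm (τ p)) = τ p := Equiv.apply_symm_apply _ _
    rw [h3] at h2
    exact h1 (τ.injective h2)
  · exact congrArg Fin.val (h p hp)

/-- The product of the intersection numbers. -/
lemma prod_delta {ε : Fin (N + 2) ≃ Fin m ⊕ Fin m} {q : Fin m} (hε : ε (Fin.last _) = Sum.inr q)
    {u v : Fin m → W.H X} (huv : ∀ p r, W.tr X (u p * v r) = if p = r then 1 else 0)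
    (σ τ ρ : Equiv.Perm (Fin m)) :
    ∏ j : Fin (N + 1), W.tr X (Sum.elim (u ∘ σ) (u ∘ τ) (ε j.castSucc) *
      Sum.elim v (v ∘ ρ) (ε j.castSucc)) = if σ = 1 ∧ τ = ρ then 1 else 0 := by
  have hex : ∀ s : Fin m ⊕ Fin m, s ≠ Sum.inr q → ∃ j : Fin (N + 1), ε j.castSucc = s := by
    intro s hs
    have h1 : ε.symm s ≠ Fin.last _ := by
      intro h
      apply hs
      rw [← hε, ← h, Equiv.apply_symm_apply]
    obtain ⟨j, hj⟩ := Fin.exists_castSucc_eq.2 h1
    exact ⟨j, by rw [hj, Equiv.apply_symm_apply]⟩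
  split_ifs with h
  · obtain ⟨rfl, rfl⟩ := h
    apply Finset.prod_eq_one
    intro j _
    rcases ε j.castSucc with p | p
    · simp [huv]
    · simp [huv]
  · by_cases hσ : σ = 1
    · have hτ : τ ≠ ρ := fun h' => h ⟨hσ, h'⟩
      obtain ⟨p, hp, hne⟩ : ∃ p, p ≠ q ∧ τ p ≠ ρ p := by
        by_contra hcon
        push Not at hcon
        exact hτ (perm_eq_of hcon)
      obtain ⟨j, hj⟩ := hex (Sum.inr p) fun h' => hp (Sum.inr_injective h')
      apply Finset.prod_eq_zero (Finset.mem_univ j)
      rw [hj]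
      simp [huv, hne]
    · obtain ⟨p, hne⟩ : ∃ p, σ p ≠ p := by
        by_contra hcon
        push Not at hcon
        exact hσ (Equiv.ext hcon)
      obtain ⟨j, hj⟩ := hex (Sum.inl p) (by simp)
      apply Finset.prod_eq_zero (Finset.mem_univ j)
      rw [hj]
      simp [huv, hne]

/-- **The range of the operator given by the class `cc`.** -/
theorem range_cc {i i' : ℕ} {ε : Fin (N + 2) ≃ Fin m ⊕ Fin m} {q : Fin m}
    (hε : ε (Fin.last _) = Sum.inr q) {u v : Fin m → W.H X} (hu : ∀ j, u j ∈ W.gr X i)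
    (hv : ∀ j, v j ∈ W.gr X i') (huv : ∀ p r, W.tr X (u p * v r) = if p = r then 1 else 0) :
    LinearMap.range (W.corr (X := pw X N) (Y := X) (cc W X ε u)) =
      Submodule.span W.K (Set.range u) := by
  have hcc : ∀ z : W.H (pw X N), W.corr (X := pw X N) (Y := X) (cc W X ε u) z =
      ∑ τ : Equiv.Perm (Fin m), ∑ σ : Equiv.Perm (Fin m), Equiv.Perm.sign τ •
        Equiv.Perm.sign σ • W.corr (xp W (FF W X N fun j => Sum.elim (u ∘ σ) (u ∘ τ)
          (ε j.castSucc)) (u (τ q))) z := by
    intro z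
    change LL W X N (cc W X ε u) z = _
    rw [cc, D2, map_sum, LinearMap.sum_apply]
    refine Finset.sum_congr rfl fun τ _ => ?_
    rw [map_sum, LinearMap.sum_apply]
    refine Finset.sum_congr rfl fun σ _ => ?_
    rw [Units.smul_def, Units.smul_def, Units.smul_def, Units.smul_def, map_zsmul, map_zsmul,
      G2_apply, hε]
    rfl
  apply le_antisymm
  · rintro _ ⟨z, rfl⟩
    rw [hcc]
    refine Submodule.sum_mem _ fun τ _ => Submodule.sum_mem _ fun σ _ => ?_
    refine sign_mem _ _ (sign_mem _ _ ?_)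
    have h1 := corr_xp_mem (FF W X N fun j => Sum.elim (u ∘ σ) (u ∘ τ) (ε j.castSucc))
      (PH.of (hu (τ q))) z
    have h2 : ({u (τ q)} : Set (W.H X)) ⊆ Set.range u := by
      rw [Set.singleton_subset_iff]; exact ⟨τ q, rfl⟩
    exact Submodule.span_mono h2 h1
  · rw [Submodule.span_le]
    rintro _ ⟨p, rfl⟩
    obtain ⟨s, hs, htr⟩ := tr_FF W X i i' N
    let ρ : Equiv.Perm (Fin m) := Equiv.swap q p
    let b : Fin (N + 1) → W.H X := fun j => Sum.elim v (v ∘ ρ) (ε j.castSucc)
    have hb : ∀ j, b j ∈ W.gr X i' := by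
      intro j
      change Sum.elim v (v ∘ ρ) (ε j.castSucc) ∈ _
      rcases ε j.castSucc with p | p
      · exact hv _
      · exact hv _
    have hz : FF W X N b ∈ PH W (pw X N) ((N + 1) * i') := PH.of (FF_mem N hb)
    have key : W.corr (X := pw X N) (Y := X) (cc W X ε u) (FF W X N b) =
        (Equiv.Perm.sign ρ) • (((-1) ^ (i * ((N + 1) * i')) * s) • u p) := by
      rw [hcc, Finset.sum_eq_single ρ, Finset.sum_eq_single 1]
      · rw [corr_xp _ (PH.of (hu _)) hz, htr _ _ (fun j => ?_) hb, prod_delta hε huv]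
        · rw [if_pos ⟨rfl, rfl⟩, mul_one, Equiv.Perm.sign_one, one_smul]
          change _ • _ • u (Equiv.swap q p q) = _
          rw [Equiv.swap_apply_left]
        · rcases ε j.castSucc with p | p
          · exact hu _
          · exact hu _
      · intro σ _ hσ
        rw [corr_xp _ (PH.of (hu _)) hz, htr _ _ (fun j => ?_) hb, prod_delta hε huv,
          if_neg (fun h => hσ h.1), mul_zero, mul_zero, zero_smul, smul_zero, smul_zero]
        rcases ε j.castSucc with p | p
        · exact hu _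
        · exact hu _
      · intro h; exact absurd (Finset.mem_univ _) h
      · intro τ _ hτ
        apply Finset.sum_eq_zero
        intro σ _
        rw [corr_xp _ (PH.of (hu _)) hz, htr _ _ (fun j => ?_) hb, prod_delta hε huv,
          if_neg (fun h => hτ h.2), mul_zero, mul_zero, zero_smul, smul_zero, smul_zero]
        rcases ε j.castSucc with p | p
        · exact hu _
        · exact hu _
      · intro h; exact absurd (Finset.mem_univ _) h
    have h1 : (Equiv.Perm.sign ρ) • (((-1 : W.K) ^ (i * ((N + 1) * i')) * s) • u p) ∈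
        LinearMap.range (W.corr (X := pw X N) (Y := X) (cc W X ε u)) := ⟨_, key⟩
    have h2 : ((-1 : W.K) ^ (i * ((N + 1) * i')) * s) • u p ∈
        LinearMap.range (W.corr (X := pw X N) (Y := X) (cc W X ε u)) := by
      have h3 := sign_mem _ (Equiv.Perm.sign ρ) h1
      rwa [smul_smul, Int.units_mul_self, one_smul] at h3
    have h5 : ((-1 : W.K) ^ (i * ((N + 1) * i')) * s) ≠ 0 :=
      mul_ne_zero (pow_ne_zero _ (by simp)) hs
    have h6 := Submodule.smul_mem _ ((-1 : W.K) ^ (i * ((N + 1) * i')) * s)⁻¹ h2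
    rwa [smul_smul, inv_mul_cancel₀ h5, one_smul] at h6

end Pool.Agent.NH34.Reg
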