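import Pool.Agent.Y133.Half.PairPow

/-!
# Operators of a nondegenerate system of classes are regular
-/

open CategoryTheory AlgebraicGeometry

universe u v

namespace Pool.Agent.NH34.Reg

open Module Polynomial
open Pool.Agent.H914 Pool.Agent.H914.VarClass Pool.Agent.H914.VarClass.Obj
  Pool.Agent.H914.WeilCohomology Pool.Agent.Y133.Half Pool.Agent.Y133.Half.Sys

variable {k : Type u} [Field k] {𝒱 : VarClass k} {ops : CycleOps 𝒱}
  {W : WeilCohomology.{u, v} ops} {X P Q : 𝒱.Obj} {S : Sys W}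

lemma aeval_mem {y : Module.End W.K (W.H X)} (hy : y ∈ S.Op X X) (q : W.K[X]) :
    aeval y q ∈ S.Op X X := by
  induction q using Polynomial.induction_on' with
  | add p q hp hq => rw [map_add]; exact Submodule.add_mem _ hp hq
  | monomial n a =>
    rw [aeval_monomial, Algebra.algebraMap_eq_smul_one, smul_mul_assoc, one_mul]
    exact Submodule.smul_mem _ _ (Op.pow hy n)

/-- An operator `a` from `Q` to `X` of a system which is nondegenerate on `Q × X`: there is an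
idempotent `e` of the form `a φ` with `e a = a`. -/
theorem exists_regular (hS : Nondeg S (Q.prod X)) {a : W.H Q →ₗ[W.K] W.H X} (ha : a ∈ S.Op Q X) :
    ∃ φ ∈ S.Op X Q, (a ∘ₗ φ) ∘ₗ a = a := by
  classical
  let T : ℕ → Prop := fun n => ∃ φ ∈ S.Op X Q, (a ∘ₗ φ) ∘ₗ (a ∘ₗ φ) = a ∘ₗ φ ∧
    finrank W.K (LinearMap.range (a ∘ₗ φ)) = n
  have hT0 : T 0 := ⟨0, Submodule.zero_mem _, by simp, by simp⟩
  have hTb : ∀ n, T n → n ≤ finrank W.K (W.H X) := by
    rintro n ⟨φ, _, _, rfl⟩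
    exact Submodule.finrank_le _
  obtain ⟨φ, hφ, hid, hn⟩ := Nat.findGreatest_spec (P := T) (Nat.zero_le (finrank W.K (W.H X))) hT0
  have hmax : ∀ ψ ∈ S.Op X Q, (a ∘ₗ ψ) ∘ₗ (a ∘ₗ ψ) = a ∘ₗ ψ →
      finrank W.K (LinearMap.range (a ∘ₗ ψ)) ≤ finrank W.K (LinearMap.range (a ∘ₗ φ)) := by
    intro ψ hψ hψ2
    rw [hn]
    exact Nat.le_findGreatest (hTb _ ⟨ψ, hψ, hψ2, rfl⟩) ⟨ψ, hψ, hψ2, rfl⟩
  refine ⟨φ, hφ, ?_⟩
  set e := a ∘ₗ φ with he
  by_contra hne
  set v := a - e ∘ₗ a with hv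
  have hv0 : v ≠ 0 := fun h => hne (sub_eq_zero.1 h).symm
  have heS : e ∈ S.Op X X := Op.comp ha hφ
  have hvS : v ∈ S.Op Q X := Submodule.sub_mem _ ha (Op.comp heS ha)
  obtain ⟨g, hg, hgt⟩ : ∃ g ∈ S.Op X Q, LinearMap.trace W.K (W.H Q) (g ∘ₗ v) ≠ 0 := by
    by_contra hcon
    push Not at hcon
    exact hv0 (eq_zero_of_trace hS hvS hcon)
  set y : Module.End W.K (W.H X) := v ∘ₗ g with hy
  have hyt : LinearMap.trace W.K (W.H X) y ≠ 0 := by
    rw [hy, LinearMap.trace_comp_comm']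
    exact hgt
  obtain ⟨q, hq1, hq2⟩ := exists_fit y
  set r := aeval y q with hr
  have hyS : y ∈ S.Op X X := Op.comp hvS hg
  have hrS : r ∈ S.Op X X := aeval_mem hyS q
  have hcomm : r * y = y * r := by
    have : Commute (aeval y q) (aeval y (Polynomial.X : W.K[X])) := by
      rw [Commute, SemiconjBy, ← map_mul, ← map_mul, mul_comm]
    rw [aeval_X] at this
    exact this
  have hf0 : r * y ≠ 0 := by
    intro h
    exact hyt (LinearMap.isNilpotent_trace_of_isNilpotent (hq2 h)).eq_zero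
  set f : Module.End W.K (W.H X) := r * y with hf
  have hff : f * f = f := hq1
  set g' : W.H X →ₗ[W.K] W.H Q := g ∘ₗ r with hg'
  have hg'S : g' ∈ S.Op X Q := Op.comp hg hrS
  have hfv : f = v ∘ₗ g' := by rw [hcomm]; rfl
  have hev : e ∘ₗ v = 0 := by
    rw [hv, LinearMap.comp_sub, ← LinearMap.comp_assoc, hid, sub_self]
  have hef : e * f = 0 := by
    rw [hfv]
    change e ∘ₗ v ∘ₗ g' = 0
    rw [← LinearMap.comp_assoc, hev, LinearMap.zero_comp]
  have hee : e * e = e := hid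
  set ψ : W.H X →ₗ[W.K] W.H Q := g' - φ ∘ₗ a ∘ₗ g' with hψ
  have hψS : ψ ∈ S.Op X Q := Submodule.sub_mem _ hg'S (Op.comp hφ (Op.comp ha hg'S))
  have hfa : f = a ∘ₗ ψ := by
    rw [hfv, hv, hψ, LinearMap.sub_comp, LinearMap.comp_sub]
    rfl
  set φ' : W.H X →ₗ[W.K] W.H Q := φ + ψ - ψ ∘ₗ e with hφ'
  have hφ'S : φ' ∈ S.Op X Q :=
    Submodule.sub_mem _ (Submodule.add_mem _ hφ hψS) (Op.comp hψS heS)
  set e' : Module.End W.K (W.H X) := e + f - f * e with he'
  have hae : a ∘ₗ φ' = e' := by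
    rw [hφ', LinearMap.comp_sub, LinearMap.comp_add, ← LinearMap.comp_assoc, ← hfa]
    rfl
  have hfef : f * e * f = 0 := by rw [mul_assoc, hef, mul_zero]
  have h1 : e' * e = e := by
    rw [he', sub_mul, add_mul, mul_assoc f e e, hee]
    abel
  have h2 : e' * f = f := by
    rw [he', sub_mul, add_mul, hfef, hef, hff]
    abel
  have h3 : e' * e' = e' := by
    have h0 : e' * e' = e' * e + e' * f - e' * f * e := by
      rw [mul_assoc, ← mul_add, ← mul_sub]
    rw [h0, h1, h2]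
  have h4 : (a ∘ₗ φ') ∘ₗ (a ∘ₗ φ') = a ∘ₗ φ' := by rw [hae]; exact h3
  have h5 := hmax φ' hφ'S h4
  rw [hae] at h5
  have h6 : LinearMap.range e < LinearMap.range e' := by
    refine lt_of_le_of_ne ?_ ?_
    · rintro _ ⟨x, rfl⟩
      exact ⟨e x, congrArg (fun t : Module.End W.K (W.H X) => t x) h1⟩
    · intro heq
      apply hf0
      apply LinearMap.ext
      intro x
      have h7 : f x ∈ LinearMap.range e' :=
        ⟨f x, congrArg (fun t : Module.End W.K (W.H X) => t x) h2⟩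
      rw [← heq] at h7
      obtain ⟨z, hz⟩ := h7
      have h8 : e (e z) = e z := congrArg (fun t : Module.End W.K (W.H X) => t z) hee
      rw [hz] at h8
      have h9 : e (f x) = 0 := congrArg (fun t : Module.End W.K (W.H X) => t x) hef
      rw [LinearMap.zero_apply, ← h8, h9]
  exact absurd (Submodule.finrank_lt_finrank_of_lt h6) (not_lt.2 h5)

end Pool.Agent.NH34.Reg
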